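import Pool.Agent.W309.TD.Stmt
import Pool.Agent.W309.TD.Geo

/-!
# 2-primary parts of Tate-Shafarevich groups over global function fields

`E_g : y ^ 2 = x (x - 1) (x - g)` over a global function field `L` of odd characteristic (of any
genus), the fraction field of a ring `R` of functions regular outside one place. If, up to odd
powers, `g - 1` is a prime element and `g` is a prime element, with residue fields of odd degree
over the field of constants, and if `R` has no ideal class of order two, then the 2-primary part of
the Tate-Shafarevich group of `E_g` over `L` is zero; so the Tate-Shafarevich group is finite.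
The same for `E_g` over all constant field extensions of `k(t)` of degree prime to that of `g`.
-/

set_option autoImplicit false
set_option linter.all false

open WeierstrassCurve IsDedekindDomain Polynomial
open scoped Classical

namespace Pool.Agent.Results.MP_72e2e6_nt.LegendreShaTwoPart

/-- The elliptic curve `E_g : y ^ 2 = x (x - 1) (x - g) = x ^ 3 - (1 + g) x ^ 2 + g x`. -/
def E {L : Type} [Field L] (g : L) : WeierstrassCurve L := ⟨0, -(1 + g), 0, g, 0⟩

section

variable (k R : Type) [Field k] [CommRing R] [IsDedekindDomain R] [Algebra k R]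

/-- The units of `R` are the nonzero constants, and `R` has no ideal class of order two. For the
ring of functions on a curve over `k` which are regular outside a place the first condition always
holds. -/
structure IsOddAffineRing : Prop where
  units : ∀ u : Rˣ, ∃ c : k, algebraMap k R c = u
  class_group : ∀ I : Ideal R, (I ^ 2).IsPrincipal → I.IsPrincipal

variable {R}

/-- The residue field of `v` is an extension of odd degree of `k`. -/
def OddDegree (v : HeightOneSpectrum R) : Prop := Odd (Module.finrank k (R ⧸ v.asIdeal))

/-- `v` is the only prime dividing `x`, and the multiplicity is odd. -/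
def IsOddPower (v : HeightOneSpectrum R) (x : R) : Prop :=
  ∃ n : ℕ, Ideal.span {x} = v.asIdeal ^ (2 * n + 1)

/-- `v` divides `x` with odd multiplicity. -/
def OddMultiplicity (v : HeightOneSpectrum R) (x : R) : Prop :=
  ∃ (n : ℕ) (I : Ideal R), Ideal.span {x} = v.asIdeal ^ (2 * n + 1) * I ∧ ¬ I ≤ v.asIdeal

/-- The conditions on `g`: some prime `q` of odd degree is the only prime dividing `g - 1`, to an odd
power; and either some prime `p` of odd degree is the only prime dividing `g`, to an odd power, or
`-1` is not a square in `k`, all primes dividing `g` have odd degree, and one of them divides `g`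
with odd multiplicity. -/
def Good (g : R) : Prop :=
  (∃ q : HeightOneSpectrum R, OddDegree k q ∧ IsOddPower q (g - 1)) ∧
    ((∃ p : HeightOneSpectrum R, OddDegree k p ∧ IsOddPower p g) ∨
      (¬ IsSquare (-1 : k) ∧ (∀ p : HeightOneSpectrum R, g ∈ p.asIdeal → OddDegree k p) ∧
        ∃ p : HeightOneSpectrum R, OddMultiplicity p g))

end

/-- For polynomials `g` over `k`: `g` has odd degree, `g - 1` is irreducible, `m` is prime to the
degree of `g`, and either `g` is irreducible, or `-1` is not a square in `k`, `m` is odd and all
irreducible factors of `g` have odd degree. -/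
def GoodPoly {k : Type} [Field k] (m : ℕ) (g : k[X]) : Prop :=
  Odd g.natDegree ∧ Irreducible (g - 1) ∧ m.Coprime g.natDegree ∧
    (Irreducible g ∨ (¬ IsSquare (-1 : k) ∧ Odd m ∧
      ∀ π : k[X], Irreducible π → π ∣ g → Odd π.natDegree))

theorem stable {k R : Type} [Field k] [CommRing R] [IsDedekindDomain R] [Algebra k R]
    (hR : IsOddAffineRing k R) {v : HeightOneSpectrum R} (hv : OddDegree k v) (u : Rˣ)
    (h : ∃ a : R, (u : R) - a ^ 2 ∈ v.asIdeal) : ∃ b : R, (u : R) = b ^ 2 := by
  obtain ⟨c, hc⟩ := hR.units u
  obtain ⟨a, ha⟩ := h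
  haveI := v.isMaximal
  letI : Field (R ⧸ v.asIdeal) := Ideal.Quotient.field v.asIdeal
  have h1 : IsSquare (algebraMap k (R ⧸ v.asIdeal) c) := by
    refine ⟨Ideal.Quotient.mk _ a, ?_⟩
    have h2 : algebraMap k (R ⧸ v.asIdeal) c = Ideal.Quotient.mk v.asIdeal (algebraMap k R c) := rfl
    rw [h2, hc, ← map_mul, ← pow_two, Ideal.Quotient.eq]
    exact ha
  obtain ⟨b, hb⟩ := W309.TD.isSquare_of_odd_finrank (k := k) (M := R ⧸ v.asIdeal) hv h1
  exact ⟨algebraMap k R b, by rw [← hc, hb, map_mul, pow_two]⟩

theorem main {k R L : Type} [Field k] [CommRing R] [IsDedekindDomain R] [Algebra k R] [Field L]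
    [Algebra R L] [IsFractionRing R L] (h2 : (2 : k) ≠ 0) (hR : IsOddAffineRing k R) (g : R)
    (hg : Good k g) :
    W309.Sha.ShaTwoTrivial R (E (algebraMap R L g)) ∧
      W309.Sha.PointsComplete (E (algebraMap R L g)) := by
  obtain ⟨⟨q, hq1, j, hq2⟩, hp⟩ := hg
  have h2L : (2 : L) ≠ 0 := by
    have h3 : algebraMap R L (algebraMap k R 2) ≠ 0 := by
      rw [Ne, map_eq_zero_iff _ (IsFractionRing.injective R L),
        map_eq_zero_iff _ (algebraMap k R).injective]
      exact h2
    rwa [map_ofNat, map_ofNat] at h3
  have hq0 : ¬ IsSquare (q.intValuation (g - 1)) := by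
    refine W309.TD.not_isSquare_intValuation j ⊤ (by rw [hq2, ← Ideal.one_eq_top, mul_one]) ?_
    intro h
    exact q.isPrime.ne_top (top_le_iff.1 h)
  have hm : ¬ IsSquare (-1 : k) → ∀ v : HeightOneSpectrum R, OddDegree k v →
      ¬ IsSquare (-1 : R) := by
    intro hn v hv ⟨b, hb⟩
    haveI := v.isMaximal
    letI : Field (R ⧸ v.asIdeal) := Ideal.Quotient.field v.asIdeal
    apply hn
    apply W309.TD.isSquare_of_odd_finrank (k := k) (M := R ⧸ v.asIdeal) hv
    refine ⟨Ideal.Quotient.mk _ b, ?_⟩
    rw [← map_mul, ← hb, map_neg, map_one, map_neg, map_one]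
  have key : ∃ p : HeightOneSpectrum R, ¬ IsSquare (p.intValuation g) ∧
      ((∀ v : HeightOneSpectrum R, g ∈ v.asIdeal → v = p) ∨ ¬ IsSquare (-1 : R)) ∧
      ∀ v : HeightOneSpectrum R, g ∈ v.asIdeal → OddDegree k v := by
    rcases hp with ⟨p, hp1, i, hp2⟩ | ⟨hn, hall, p, i, I, hp2, hI⟩
    · have hun : ∀ v : HeightOneSpectrum R, g ∈ v.asIdeal → v = p := by
        intro v hv
        by_contra hvp
        have := W309.TD.intValuation_eq_one_of (2 * i + 1) hp2 hvp
        rw [HeightOneSpectrum.intValuation_eq_one_iff] at this
        exact this hv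
      refine ⟨p, ?_, Or.inl hun, fun v hv => by rw [hun v hv]; exact hp1⟩
      refine W309.TD.not_isSquare_intValuation i ⊤ (by rw [hp2, ← Ideal.one_eq_top, mul_one]) ?_
      intro h
      exact p.isPrime.ne_top (top_le_iff.1 h)
    · exact ⟨p, W309.TD.not_isSquare_intValuation i I hp2 hI, Or.inr (hm hn q hq1), hall⟩
  obtain ⟨p, hp1, hp2, hp3⟩ := key
  have hcl : W309.TD.NoTwo R := hR.class_group
  have hc := W309.TD.dedekind (K := L) h2L hcl g q hq0
    (fun v hv => W309.TD.intValuation_eq_one_of (2 * j + 1) hq2 hv) p hp1 hp2
    (fun u hu => stable hR hq1 u hu) (fun v hv u hu => stable hR (hp3 v hv) u hu)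
  have hs := W309.Sha.of_concl (E (algebraMap R L g)) hc
  exact ⟨hs.2.1, hs.1⟩

/-- **Theorem.** Let `k` be a finite field of odd characteristic.

Let `L` be the fraction field of a Dedekind domain `R` containing `k` whose units are the nonzero
constants and which has no ideal class of order two (for instance the functions on a curve which are
regular outside a place), and let `g` in `R` satisfy `Good`. Then the classes of 2-power order in
`H ^ 1 (L, E_g)` which are trivial over the completions of `L` at all maximal ideals of `R` are zero,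
so the 2-primary part of the Tate-Shafarevich group of `E_g` over `L` is zero; and
`E_g(L) = 2 E_g(L) + E_g(L)[2]`.

Let `g` be a polynomial over `k` with `GoodPoly m g`. Then the same holds for `E_g` over `L = k'(t)`
for every extension `k'` of degree `m` of `k`. -/
theorem result :
    (∀ (k R L : Type) [Field k] [Finite k] [CommRing R] [IsDedekindDomain R] [Algebra k R] [Field L]
      [Algebra R L] [IsFractionRing R L], (2 : k) ≠ 0 → IsOddAffineRing k R → ∀ g : R, Good k g →
        W309.Sha.ShaTwoTrivial R (E (algebraMap R L g)) ∧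
          W309.Sha.PointsComplete (E (algebraMap R L g))) ∧
    (∀ (k k' : Type) [Field k] [Finite k] [Field k'] [Algebra k k'] [FiniteDimensional k k'],
      (2 : k) ≠ 0 → ∀ g : k[X], GoodPoly (Module.finrank k k') g →
        W309.Sha.ShaTwoTrivial k'[X]
          (E (algebraMap k'[X] (RatFunc k') (g.map (algebraMap k k')))) ∧
        W309.Sha.PointsComplete
          (E (algebraMap k'[X] (RatFunc k') (g.map (algebraMap k k'))))) := by
  refine ⟨?_, ?_⟩
  · intro k R L _ _ _ _ _ _ _ _ h2 hR g hg
    exact main h2 hR g hg
  · rintro k k' _ _ _ _ _ h2 g ⟨hodd, hq, hc, halt⟩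
    have h2' : (2 : k') ≠ 0 := by
      have : algebraMap k k' 2 ≠ 0 := by
        rw [Ne, map_eq_zero_iff _ (algebraMap k k').injective]; exact h2
      rwa [map_ofNat] at this
    have hd1 : (g - 1).natDegree = g.natDegree := by
      have h1 : (1 : k[X]) = C 1 := by rw [C_1]
      rw [h1, natDegree_sub_C]
    have hg0 : g ≠ 0 := by rintro rfl; simp at hodd
    have e1 : (g - 1).map (algebraMap k k') = g.map (algebraMap k k') - 1 := by
      rw [Polynomial.map_sub, Polynomial.map_one]
    have hq' : Irreducible (g.map (algebraMap k k') - 1) := by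
      rw [← e1]
      exact W309.TD.irreducible_map hq (by rw [hd1]; exact hc)
    have hd' : (g.map (algebraMap k k')).natDegree = g.natDegree := natDegree_map _
    have hqs : W309.TD.SqStable (g.map (algebraMap k k') - 1) := by
      apply W309.TD.sqStable_of_odd hq'
      rw [← e1, natDegree_map, hd1]
      exact hodd
    have hconcl : W309.TD.Concl k'[X] (RatFunc k')
        (W309.TD.leg (algebraMap k'[X] (RatFunc k') (g.map (algebraMap k k')))) := by
      refine W309.TD.poly_main h2' (RatFunc k') _ hq' hqs ?_
      rcases halt with hirr | ⟨hn, hm, hall⟩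
      · left
        have h := W309.TD.irreducible_map (k' := k') hirr hc
        exact ⟨h, W309.TD.sqStable_of_odd h (by rw [hd']; exact hodd)⟩
      · right
        refine ⟨W309.TD.neg_one_map hn hm, ?_, ?_⟩
        · rintro ⟨c, s, hs⟩
          have h3 := congrArg natDegree hs
          rw [hd'] at h3
          have hc0 : c ≠ 0 := by
            rintro rfl
            rw [C_0, zero_mul, Polynomial.map_eq_zero] at hs
            exact hg0 hs
          rw [natDegree_C_mul hc0, natDegree_pow] at h3
          rw [h3] at hodd
          exact absurd hodd (by rw [Nat.not_odd_iff_even]; exact even_two_mul _)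
        · intro ρ hρ hρd
          exact W309.TD.sqStable_of_odd hρ (W309.TD.odd_factor hg0 hall hρ hρd)
    have hs := W309.Sha.of_concl
      (E (algebraMap k'[X] (RatFunc k') (g.map (algebraMap k k')))) hconcl
    exact ⟨hs.2.1, hs.1⟩

end Pool.Agent.Results.MP_72e2e6_nt.LegendreShaTwoPart
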