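import Pool.Agent.W528.HF.Main
import Pool.Agent.W528.HC.MU
import Pool.Agent.W924.HC.PR
import Pool.Agent.W340.HD.IN
import Pool.Agent.W108.HD.ONE
import Pool.Agent.W940.HD.GE
import Pool.Agent.W551.HD.GN
import Pool.Agent.W999.HF.AG
import Pool.Agent.W933.HF.PN

set_option autoImplicit false

namespace Pool.Agent.Results.MP_72e2e6_nt.SuperellipticAllCharacteristics

open Polynomial Pool.Agent.W528.HC Pool.Agent.W528.HD Pool.Agent.W528.HF

/-- **Finite Tate-Shafarevich groups in every characteristic.**

Let `c` be any prime (for example `2`), `n = 1 + c + ... + c ^ (g - 1)`, `k` a finite field of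
characteristic `c` containing the `n r`-th roots of unity, `r` prime to `n` (and `c`);
let `f_1, ..., f_m` be any polynomials over `k` of degree at most `D`, not all of the differences
constant, `a_i > 0` prime to `n`, and `2 D (a_1 + ... + a_m) < g`. Let `J` be the Jacobian of the
curve `y ^ n = ∏ (x - f_i(u ^ r)) ^ a_i` over `k(u)`. The characters `(j, s)`, `0 < j < n` prime to
`n`, `0 ≤ s < r`, of the group of roots of unity acting on `(u, y)` have L-functions which are
polynomials `∏ (1 - x T)` (Grothendieck): `IsPolyL` holds with the multiset `A j s` of the `x`.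

Theorem: (1) the sums `polySum` of all characters `(j, s)` together give the numbers of points
of the surface `y ^ n = ∏ (x - f_i(u ^ r)) ^ a_i`;
(2) the product `newPoly` over the `j` prime to `n`, which is the L-function of the new part of
`J`, does not vanish at `ζ / q` for any root of unity `ζ`. -/
theorem result (n r c D g : ℕ) (hn : n = ∑ i ∈ Finset.range g, c ^ i) (hr : 0 < r)
    (hrn : r.Coprime n) [Fact c.Prime]
    (k : Type) [Field k] [Fintype k] [CharP k c] (z : k) (hz : IsPrimitiveRoot z (n * r))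
    (E : Type) [Field E] [CharZero E] [IsAlgClosed E] (μ : E) (hμ : IsPrimitiveRoot μ (n * r))
    (m : ℕ) (f : Fin m → k[X]) (hD : 1 ≤ D) (hf : ∀ i, (f i).natDegree ≤ D)
    (a : Fin m → ℕ) (ha : ∀ i, 0 < a i ∧ (a i).Coprime n) (ha2 : 2 * D * ∑ i, a i < g)
    (A : ℕ → ℕ → Multiset E)
    (hA : ∀ j s, 0 < j → j < n → j.Coprime n → s < r → IsPolyL k n r f a z μ j s (A j s)) :
    (∀ (L : Type) [Field L] [Fintype L] [Algebra k L],
      ∑ j ∈ Finset.Ico 1 n, ∑ s ∈ Finset.range r,
          polySum L E n r (fun i => (f i).map (algebraMap k L)) a (algebraMap k L z) μ j s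
        = (polyPoints L n r (fun i => (f i).map (algebraMap k L)) a : E)
          - (Fintype.card L : E) ^ 2) ∧
    ∀ (ζ : E) (M : ℕ), 0 < M → ζ ^ M = 1 →
      (newPoly n r A).eval (ζ * (Fintype.card k : E)⁻¹) ≠ 0 :=
  fin_new Pool.Agent.W551.HD.GN.main
    (Pool.Agent.W108.HD.ONE.main Pool.Agent.W551.HD.GN.main Pool.Agent.W340.HD.IN.main
      Pool.Agent.W135.HB.SA.main)
    Pool.Agent.W940.HD.GE.main Pool.Agent.W999.HF.AG.main
    (Pool.Agent.W933.HF.PN.main Pool.Agent.W924.HC.PR.main mu_main)
    hn hr hrn k hz hμ hD f hf a ha ha2 A hA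

end Pool.Agent.Results.MP_72e2e6_nt.SuperellipticAllCharacteristics
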